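import Pool.Agent.PT56.Mink

set_option autoImplicit false
set_option linter.unusedSectionVars false

/-!
# FF61/VolEq: two polytopes with the same facet volumes have the same volume (dimension at least two)

`vol_le0`: `K`, `L` polytopes, `0 ∈ interior L`, `d ≥ 2`.  If `V(L) < V(K)` put `L' = lam L` with
`V(L') = V(K)`; then `lam V(L) < V(K)`, as `d ≥ 2`.  By `bm`, `V(DD K L' k) ≥ V(K)` for all `k`, and
`V(DD K L' k) ≤ (1-τ)^d V(K + t L') ≤ (1-τ)^d (V(K) + t (d lam V(L) + ε))` by `var_upper` and `pyr`, `τ = 2^(-k)`,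
`t = τ/(1-τ)`.  As `(1-τ)(1+t) = 1` this gives `d V(K) ≤ d lam V(L) + ε`, a contradiction for small `ε`.
-/

namespace Pool.PT56

open Set Filter Topology MeasureTheory
open scoped RealInnerProductSpace ENNReal Pointwise

variable {E : Type} [NormedAddCommGroup E] [InnerProductSpace ℝ E] [FiniteDimensional ℝ E]
  [MeasurableSpace E] [BorelSpace E]

theorem FF61_pos {P : Set E} (hP : IsCompact P) (hPi : (interior P).Nonempty) :
    0 < (volume P).toReal := by
  apply ENNReal.toReal_pos
  · intro h0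
    have h1 : 0 < volume (interior P) := isOpen_interior.measure_pos _ hPi
    have := measure_mono (μ := (volume : Measure E)) (interior_subset (s := P))
    rw [h0] at this
    exact absurd h1 (not_lt.2 this)
  · exact hP.measure_ne_top

theorem FF61_spt_smul {L : Set E} {c : ℝ} (hc : 0 ≤ c) (u : E) :
    spt (c • L) u = c * spt L u := by
  have h : (fun x => ⟪u, x⟫) '' (c • L) = c • ((fun x => ⟪u, x⟫) '' L) := by
    ext y
    simp only [Set.mem_image, Set.mem_smul_set]
    constructor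
    · rintro ⟨_, ⟨x, hx, rfl⟩, rfl⟩
      exact ⟨_, ⟨x, hx, rfl⟩, by simp [inner_smul_right]⟩
    · rintro ⟨_, ⟨x, hx, rfl⟩, rfl⟩
      exact ⟨_, ⟨x, hx, rfl⟩, by simp [inner_smul_right]⟩
  unfold spt
  rw [h, Real.sSup_smul_of_nonneg hc, smul_eq_mul]

theorem FF61_DD_lower {P L : Set E} (hP : IsCompact P) (hL : IsCompact L)
    (hPi : (interior P).Nonempty) (hm : (volume P).toReal ≤ (volume L).toReal) (k : ℕ) :
    (volume P).toReal ≤ (volume (DD P L k)).toReal := by
  induction k with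
  | zero => simpa [DD] using hm
  | succ k ih =>
    have hV : 0 < (volume P).toReal := FF61_pos hP hPi
    have hb := bm (volume : Measure E) hP (isCompact_DD hP hL k)
    have hfin : volume (DD P L (k + 1)) ≠ ∞ := (isCompact_DD hP hL (k + 1)).measure_ne_top
    have hb' : (volume P).toReal * (volume (DD P L k)).toReal ≤
        (volume (DD P L (k + 1))).toReal ^ 2 := by
      have := ENNReal.toReal_mono (ENNReal.pow_ne_top hfin) hb
      rwa [ENNReal.toReal_mul, ENNReal.toReal_pow] at this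
    have h1 : (volume P).toReal ^ 2 ≤ (volume (DD P L (k + 1))).toReal ^ 2 := by
      refine le_trans ?_ hb'
      rw [pow_two]
      exact mul_le_mul_of_nonneg_left ih hV.le
    exact (pow_le_pow_iff_left₀ hV.le ENNReal.toReal_nonneg (by norm_num)).1 h1

theorem FF61_DD_upper {P L : Set E} (hP : IsCompact P) (hL : IsCompact L) (hconv : Convex ℝ P)
    (hP0 : P.Nonempty) (k : ℕ) (hk : 1 ≤ k) : (volume (DD P L k)).toReal ≤
      (1 - (1 / 2 : ℝ) ^ k) ^ Module.finrank ℝ E *
        (volume (P + ((1 / 2 : ℝ) ^ k / (1 - (1 / 2 : ℝ) ^ k)) • L)).toReal := by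
  set τ : ℝ := (1 / 2 : ℝ) ^ k with hτ
  have hτ0 : 0 < τ := by positivity
  have hτ1 : τ ≤ 1 / 2 := by
    calc τ ≤ (1 / 2 : ℝ) ^ 1 := pow_le_pow_of_le_one (by norm_num) (by norm_num) hk
      _ = 1 / 2 := by norm_num
  have hne : (1 - τ) ≠ 0 := by intro h; linarith
  have hsub : DD P L k ⊆ (1 - τ) • (P + (τ / (1 - τ)) • L) := by
    intro x hx
    obtain ⟨y, hy, z, hz, rfl⟩ := DD_subset hconv hP0 k x hx
    rw [← hτ]
    refine Set.mem_smul_set.2 ⟨y + (τ / (1 - τ)) • z,
      Set.add_mem_add hy (Set.smul_mem_smul_set hz), ?_⟩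
    rw [smul_add, smul_smul, mul_div_cancel₀ _ hne]
  have hcomp : IsCompact ((1 - τ) • (P + (τ / (1 - τ)) • L)) :=
    (hP.add (hL.smul _)).smul _
  calc (volume (DD P L k)).toReal ≤ (volume ((1 - τ) • (P + (τ / (1 - τ)) • L))).toReal :=
        ENNReal.toReal_mono hcomp.measure_ne_top (measure_mono hsub)
    _ = _ := by
        rw [Measure.addHaar_smul, ENNReal.toReal_mul, ENNReal.toReal_ofReal (abs_nonneg _),
          abs_of_nonneg (pow_nonneg (by linarith) _)]

theorem FF61_vol_le0 {K L : Set E} (hd : 2 ≤ Module.finrank ℝ E) (hK : Polytope K)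
    (hL : Polytope L) (h0 : (0 : E) ∈ interior L)
    (h : ∀ u, ‖u‖ = 1 → volume (prism (face K u) u) = volume (prism (face L u) u)) :
    (volume K).toReal ≤ (volume L).toReal := by
  by_contra hlt
  rw [not_le] at hlt
  obtain ⟨U, hU1, hU⟩ := hrep hK
  have hKi := hK.2
  have hLi := hL.2
  have hKc : IsCompact K := by
    obtain ⟨⟨S, hS, rfl⟩, -⟩ := hK
    exact hS.isCompact_convexHull (𝕜 := ℝ)
  have hKv : Convex ℝ K := by
    obtain ⟨⟨S, hS, rfl⟩, -⟩ := hK
    exact convex_convexHull ℝ S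
  have hLc : IsCompact L := by
    obtain ⟨⟨S, hS, rfl⟩, -⟩ := hL
    exact hS.isCompact_convexHull (𝕜 := ℝ)
  have hLv : Convex ℝ L := by
    obtain ⟨⟨S, hS, rfl⟩, -⟩ := hL
    exact convex_convexHull ℝ S
  have hK0 : K.Nonempty := hKi.mono interior_subset
  have hVL : 0 < (volume L).toReal := FF61_pos hLc hLi
  set V := (volume K).toReal with hVdef
  set W := (volume L).toReal with hWdef
  have hV : 0 < V := hVL.trans hlt
  set d := Module.finrank ℝ E with hdd
  have hd0 : (0 : ℝ) < d := by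
    have : 0 < d := by omega
    exact_mod_cast this
  have hdne : d ≠ 0 := by omega
  -- the scale
  set lam : ℝ := (V / W) ^ ((1 : ℝ) / d) with hlam
  have hq : 1 < V / W := (one_lt_div hVL).2 hlt
  have hlam1 : 1 < lam := Real.one_lt_rpow hq (by positivity)
  have hlamd : lam ^ d = V / W := by
    rw [hlam, one_div, Real.rpow_inv_natCast_pow (by positivity) hdne]
  have hlamW : lam * W < V := by
    have h1 : lam < lam ^ d := by
      calc lam = lam ^ 1 := (pow_one _).symm
        _ < lam ^ d := pow_lt_pow_right₀ hlam1 (by omega)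
    rw [hlamd] at h1
    calc lam * W < V / W * W := mul_lt_mul_of_pos_right h1 hVL
      _ = V := div_mul_cancel₀ _ hVL.ne'
  have hlam0 : 0 < lam := by linarith
  set L' : Set E := lam • L with hL'
  have hL'c : IsCompact L' := hLc.smul _
  have hL'V : (volume L').toReal = V := by
    rw [hL', Measure.addHaar_smul, ENNReal.toReal_mul, ENNReal.toReal_ofReal (abs_nonneg _),
      abs_of_nonneg (pow_nonneg hlam0.le _), ← hdd, hlamd, ← hWdef]
    exact div_mul_cancel₀ _ hVL.ne'
  have h0L : (0 : E) ∈ L' := by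
    rw [hL']
    exact Set.mem_smul_set.2 ⟨0, interior_subset h0, smul_zero _⟩
  have hsum : ∑ u ∈ U, spt L' u * (volume (prism (face K u) u)).toReal ≤ d * (lam * W) := by
    have key := pyr (L := L) hLc hLv h0 U hU1
    calc ∑ u ∈ U, spt L' u * (volume (prism (face K u) u)).toReal
        = lam * ∑ u ∈ U, spt L u * (volume (prism (face L u) u)).toReal := by
          rw [Finset.mul_sum]
          apply Finset.sum_congr rfl
          intro u hu
          rw [hL', FF61_spt_smul hlam0.le, h u (hU1 u hu), mul_assoc]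
      _ ≤ lam * (d * W) := mul_le_mul_of_nonneg_left key hlam0.le
      _ = d * (lam * W) := by ring
  have hvar := var_upper hKc hK0 hL'c h0L U hU1 hU (ε := (d : ℝ) * (V - lam * W) / 2)
    (by have : 0 < V - lam * W := by linarith
        positivity)
  have htend : Tendsto (fun k : ℕ => (1 / 2 : ℝ) ^ (k + 1) / (1 - (1 / 2 : ℝ) ^ (k + 1))) atTop
      (𝓝[>] 0) := by
    rw [tendsto_nhdsWithin_iff]
    constructor
    · have h1 : Tendsto (fun k : ℕ => (1 / 2 : ℝ) ^ (k + 1)) atTop (𝓝 0) :=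
        (tendsto_pow_atTop_nhds_zero_of_lt_one (by norm_num) (by norm_num)).comp
          (tendsto_add_atTop_nat 1)
      have h2 : Tendsto (fun k : ℕ => 1 - (1 / 2 : ℝ) ^ (k + 1)) atTop (𝓝 (1 - 0)) :=
        tendsto_const_nhds.sub h1
      have h3 : Tendsto (fun k : ℕ => (1 / 2 : ℝ) ^ (k + 1) / (1 - (1 / 2 : ℝ) ^ (k + 1))) atTop
          (𝓝 (0 / (1 - 0))) := h1.div h2 (by norm_num)
      rw [show (0 : ℝ) / (1 - 0) = 0 by norm_num] at h3
      exact h3
    · filter_upwards with k
      have h1 : (1 / 2 : ℝ) ^ (k + 1) ≤ 1 / 2 := by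
        calc (1 / 2 : ℝ) ^ (k + 1) ≤ (1 / 2 : ℝ) ^ 1 :=
              pow_le_pow_of_le_one (by norm_num) (by norm_num) (by omega)
          _ = 1 / 2 := by norm_num
      have h2 : (0 : ℝ) < (1 / 2 : ℝ) ^ (k + 1) := by positivity
      exact div_pos h2 (by linarith)
  obtain ⟨k, hk⟩ := (htend.eventually hvar).exists
  have hlow := FF61_DD_lower hKc hL'c hKi (le_of_eq hL'V.symm) (k + 1)
  have hupp := FF61_DD_upper hKc hL'c hKv hK0 (k + 1) (by omega)
  set τ : ℝ := (1 / 2 : ℝ) ^ (k + 1) with hτ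
  have hτ0 : 0 < τ := by positivity
  have hτ1 : τ ≤ 1 / 2 := by
    calc τ ≤ (1 / 2 : ℝ) ^ 1 := pow_le_pow_of_le_one (by norm_num) (by norm_num) (by omega)
      _ = 1 / 2 := by norm_num
  set t : ℝ := τ / (1 - τ) with ht
  have ht0 : 0 < t := div_pos hτ0 (by linarith)
  have h1t : (1 - τ) * (1 + t) = 1 := by
    have hne : (1 - τ) ≠ 0 := by intro h; linarith
    rw [ht, mul_add, mul_one, mul_div_cancel₀ _ hne]
    ring
  have hpow : (1 + t) ^ d * (1 - τ) ^ d = 1 := by rw [← mul_pow, mul_comm, h1t, one_pow]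
  have hbern : 1 + (d : ℝ) * t ≤ (1 + t) ^ d := one_add_mul_le_pow (by linarith) d
  have hX : (1 + t) ^ d * V ≤ (volume (K + t • L')).toReal := by
    have h2 : V ≤ (1 - τ) ^ d * (volume (K + t • L')).toReal := hlow.trans hupp
    calc (1 + t) ^ d * V ≤ (1 + t) ^ d * ((1 - τ) ^ d * (volume (K + t • L')).toReal) :=
          mul_le_mul_of_nonneg_left h2 (by positivity)
      _ = ((1 + t) ^ d * (1 - τ) ^ d) * (volume (K + t • L')).toReal := by ring
      _ = _ := by rw [hpow, one_mul]
  have hY : (1 + (d : ℝ) * t) * V ≤ (1 + t) ^ d * V := mul_le_mul_of_nonneg_right hbern hV.le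
  have hZ : t * (∑ u ∈ U, spt L' u * (volume (prism (face K u) u)).toReal +
      (d : ℝ) * (V - lam * W) / 2) ≤ t * (d * (lam * W) + (d : ℝ) * (V - lam * W) / 2) := by
    apply mul_le_mul_of_nonneg_left _ ht0.le
    linarith
  have hfin : (1 + (d : ℝ) * t) * V ≤ V + t * (d * (lam * W) + (d : ℝ) * (V - lam * W) / 2) :=
    (hY.trans hX).trans (hk.trans (by linarith))
  have hpos : 0 < t * ((d : ℝ) * (V - lam * W)) := by
    have : 0 < V - lam * W := by linarith
    positivity
  nlinarith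

theorem FF61_face_sh (P : Set E) (x0 u x : E) :
    x ∈ face ((fun x => x + x0) ⁻¹' P) u ↔ x + x0 ∈ face P u := by
  simp only [Pool.Agent.H14Belt.face, Set.mem_ofPred_eq, Set.mem_preimage]
  constructor
  · rintro ⟨h1, h2⟩
    refine ⟨h1, fun y hy => ?_⟩
    have := h2 (y - x0) (by simpa using hy)
    rw [inner_sub_right] at this
    rw [inner_add_right]
    linarith
  · rintro ⟨h1, h2⟩
    refine ⟨h1, fun y hy => ?_⟩
    have := h2 (y + x0) hy
    rw [inner_add_right, inner_add_right] at this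
    linarith

theorem FF61_prism_sh (P : Set E) (x0 u w : E) :
    volume (prism (face ((fun x => x + x0) ⁻¹' P) u) w) = volume (prism (face P u) w) := by
  have : prism (face ((fun x => x + x0) ⁻¹' P) u) w =
      (fun x => x + x0) ⁻¹' (prism (face P u) w) := by
    ext x
    simp only [prism, Set.mem_ofPred_eq, Set.mem_preimage]
    constructor
    · rintro ⟨y, hy, s, h0, h1, rfl⟩
      exact ⟨y + x0, (FF61_face_sh P x0 u y).1 hy, s, h0, h1, by abel⟩
    · rintro ⟨y, hy, s, h0, h1, h⟩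
      refine ⟨y - x0, (FF61_face_sh P x0 u _).2 (by simpa using hy), s, h0, h1, ?_⟩
      have : x = y + s • w - x0 := by rw [← h]; abel
      rw [this]; abel
  rw [this, measure_preimage_add_right]

theorem FF61_vol_le {K L : Set E} (hd : 2 ≤ Module.finrank ℝ E) (hK : Polytope K)
    (hL : Polytope L)
    (h : ∀ u, ‖u‖ = 1 → volume (prism (face K u) u) = volume (prism (face L u) u)) :
    (volume K).toReal ≤ (volume L).toReal := by
  obtain ⟨x0, hx0⟩ := hL.2
  set Q : Set E := (fun x => x + x0) ⁻¹' L with hQ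
  have hmem : ∀ x, x ∈ Q ↔ x + x0 ∈ L := fun x => Iff.rfl
  have hint : ∀ x, x ∈ interior Q ↔ x + x0 ∈ interior L := by
    intro x
    have h := (Homeomorph.addRight x0).preimage_interior L
    have h1 : (Homeomorph.addRight x0) ⁻¹' L = Q := rfl
    rw [h1] at h
    rw [← h]
    rfl
  have hQ0 : (0 : E) ∈ interior Q := by rw [hint, zero_add]; exact hx0
  have hpoly : Polytope Q := by
    obtain ⟨⟨S, hS, hPS⟩, hPi⟩ := hL
    refine ⟨⟨(-x0) +ᵥ S, hS.vadd_set, ?_⟩, ⟨0, hQ0⟩⟩
    rw [convexHull_vadd, ← hPS]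
    ext x
    rw [hmem, Set.mem_vadd_set_iff_neg_vadd_mem, neg_neg, vadd_eq_add, add_comm]
  have hv : volume Q = volume L := by rw [hQ, measure_preimage_add_right]
  have := FF61_vol_le0 hd hK hpoly hQ0 (fun u hu => by rw [h u hu, hQ, FF61_prism_sh])
  rwa [hv] at this

theorem vol_eq_of_facets {K L : Set E} (hd : 2 ≤ Module.finrank ℝ E) (hK : Polytope K)
    (hL : Polytope L)
    (h : ∀ u, ‖u‖ = 1 → volume (prism (face K u) u) = volume (prism (face L u) u)) :
    volume K = volume L := by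
  have hKc : IsCompact K := by
    obtain ⟨⟨S, hS, rfl⟩, -⟩ := hK
    exact hS.isCompact_convexHull (𝕜 := ℝ)
  have hLc : IsCompact L := by
    obtain ⟨⟨S, hS, rfl⟩, -⟩ := hL
    exact hS.isCompact_convexHull (𝕜 := ℝ)
  apply (ENNReal.toReal_eq_toReal_iff' hKc.measure_ne_top hLc.measure_ne_top).1
  exact le_antisymm (FF61_vol_le hd hK hL h) (FF61_vol_le hd hL hK (fun u hu => (h u hu).symm))

end Pool.PT56
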